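import Pool.Graph.R_pool_sql_team_seeded_64922ed1.Results.MP_2c613a_co.Infinite
import Pool.Graph.R_pool_sql_team_seeded_64922ed1.Results.MP_2c613a_co.LinearBound

/-!
# Least non-trivial vertex covers: all values, by the number of sides with one vertex
-/

set_option autoImplicit false

namespace Pool.Agent.Results.MP_2c613a_co.SingletonSides

open Pool.Agent.X45.PartHyp Finset

/-- The number of sides that do not consist of exactly one vertex. -/
def bigSides {r : ℕ} (s : Fin r → ℕ) : ℕ := #{i | s i ≠ 1}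

/-- The values of `τ*` on the intersecting `r`-partite hypergraphs that have a non-trivial vertex
cover and exactly `q` sides with more than one vertex. -/
def values (r q : ℕ) : Set ℕ :=
  {m | ∃ (s : Fin r → ℕ) (E : Finset (∀ i, Fin (s i))), Spanning s E ∧ Intersecting s E ∧
    bigSides s = q ∧ (∃ T, NontrivialCover s E T) ∧ tauStar s E = m}

/-- All values of `τ*` on the intersecting `r`-partite hypergraphs with a non-trivial cover. -/
def allValues (r : ℕ) : Set ℕ :=
  {m | ∃ (s : Fin r → ℕ) (E : Finset (∀ i, Fin (s i))), Spanning s E ∧ Intersecting s E ∧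
    (∃ T, NontrivialCover s E T) ∧ tauStar s E = m}

section
variable {r : ℕ} {s : Fin r → ℕ} {E : Finset (∀ i, Fin (s i))} {T : Finset (Σ i, Fin (s i))}

lemma two_le (hr : 1 ≤ r) (hS : Spanning s E) (hT : NontrivialCover s E T) : 2 ≤ T.card := by
  obtain ⟨h1, h2, h3⟩ := hT
  obtain ⟨x, hx⟩ := h3 ⟨0, hr⟩
  obtain ⟨e, he, -⟩ := hS _ x
  obtain ⟨i, hi⟩ := h1 e he
  by_contra hcon
  have hc : T.card ≤ 1 := by omega
  obtain ⟨y, hy⟩ := h3 i
  obtain ⟨g, hg, hgy⟩ := hS i y
  obtain ⟨j, hj⟩ := h1 g hg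
  have heq := card_le_one.1 hc _ hi _ hj
  have hij : i = j := congrArg Sigma.fst heq
  subst hij
  rw [hgy] at hj
  exact hy hj

lemma no_cover (hr : 1 ≤ r) (hS : Spanning s E) (hq : bigSides s ≤ 1) :
    ¬ NontrivialCover s E T := by
  rintro ⟨h1, -, h3⟩
  choose x hx using h3
  obtain ⟨i0, hi0⟩ : ∃ i0 : Fin r, ∀ i, i ≠ i0 → s i = 1 := by
    by_cases h : ∃ i0, s i0 ≠ 1
    · obtain ⟨i0, hi0⟩ := h
      refine ⟨i0, fun i hi => ?_⟩
      by_contra hne
      exact hi (card_le_one.1 hq i (by simpa using hne) i0 (by simpa using hi0))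
    · push Not at h
      exact ⟨⟨0, hr⟩, fun i _ => h i⟩
  obtain ⟨e, he, hex⟩ := hS i0 (x i0)
  obtain ⟨i, hi⟩ := h1 e he
  by_cases h : i = i0
  · subst h
    rw [hex] at hi
    exact hx _ hi
  · have h4 : e i = x i := by
      apply Fin.ext
      have := (e i).2
      have := (x i).2
      have := hi0 i h
      omega
    rw [h4] at hi
    exact hx _ hi

lemma tau_mem (h : ∃ T, NontrivialCover s E T) :
    ∃ T, NontrivialCover s E T ∧ T.card = tauStar s E := by
  obtain ⟨T, hT⟩ := h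
  exact Nat.sInf_mem (s := {m : ℕ | ∃ T, NontrivialCover s E T ∧ T.card = m}) ⟨_, T, hT, rfl⟩

end

section example'

variable (r k m : ℕ)

/-- side sizes: `k` sides with one vertex, the others with `m` vertices -/
def sz (i : Fin r) : ℕ := if (i : ℕ) < k then 1 else m

variable {r k m}

lemma lt_sz (hm : 2 ≤ m) (j : Fin m) (i : Fin r) : (if (i : ℕ) < k then 0 else (j : ℕ)) < sz r k m i := by
  unfold sz
  split_ifs
  · exact one_pos
  · exact j.2

/-- the edges -/
def ed (hm : 2 ≤ m) (j : Fin m) (i : Fin r) : Fin (sz r k m i) := ⟨_, lt_sz hm j i⟩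

/-- the edge set -/
def EE (r k : ℕ) {m : ℕ} (hm : 2 ≤ m) : Finset (∀ i, Fin (sz r k m i)) := univ.image (ed hm)

lemma ed_val (hm : 2 ≤ m) (j : Fin m) (i : Fin r) :
    ((ed (k := k) hm j i : Fin (sz r k m i)) : ℕ) = if (i : ℕ) < k then 0 else (j : ℕ) := rfl

lemma spanning (hm : 2 ≤ m) : Spanning (sz r k m) (EE r k hm) := by
  intro i x
  obtain ⟨v, hv⟩ : ∃ v : ℕ, v = (x : ℕ) := ⟨_, rfl⟩
  have hx : v < sz r k m i := by rw [hv]; exact x.2
  unfold sz at hx
  by_cases h : (i : ℕ) < k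
  · rw [if_pos h] at hx
    refine ⟨ed hm ⟨0, by omega⟩, mem_image_of_mem _ (mem_univ _), Fin.ext ?_⟩
    rw [ed_val, if_pos h]; omega
  · rw [if_neg h] at hx
    refine ⟨ed hm ⟨v, hx⟩, mem_image_of_mem _ (mem_univ _), Fin.ext ?_⟩
    rw [ed_val, if_neg h]
    exact hv

lemma intersecting (hm : 2 ≤ m) (hk : 1 ≤ k) (hr : 1 ≤ r) : Intersecting (sz r k m) (EE r k hm) := by
  intro e he f hf
  obtain ⟨a, -, rfl⟩ := mem_image.1 he
  obtain ⟨b, -, rfl⟩ := mem_image.1 hf
  refine ⟨⟨0, hr⟩, Fin.ext ?_⟩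
  rw [ed_val, ed_val, if_pos (show ((⟨0, hr⟩ : Fin r) : ℕ) < k from hk),
    if_pos (show ((⟨0, hr⟩ : Fin r) : ℕ) < k from hk)]

lemma big (hm : 2 ≤ m) (hkr : k ≤ r) : bigSides (sz r k m) = r - k := by
  unfold bigSides
  have h1 : (univ.filter fun i : Fin r => sz r k m i ≠ 1) = univ.filter fun i : Fin r => ¬ (i : ℕ) < k := by
    apply filter_congr
    intro i _
    unfold sz
    split_ifs with h
    · simp [h]
    · simp only [ne_eq, h, not_false_eq_true, iff_true]
      omega
  rw [h1]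
  have h2 := card_filter_add_card_filter_not (s := (univ : Finset (Fin r))) (fun i => (i : ℕ) < k)
  have h3 : (univ.filter fun i : Fin r => (i : ℕ) < k).card = k := by
    rw [Fin.card_filter_val_lt]
    omega
  rw [h3, card_univ, Fintype.card_fin] at h2
  omega

/-- a cover with `m` elements -/
def cov (r k m : ℕ) : Finset (Σ i, Fin (sz r k m i)) :=
  univ.filter fun p => ((p.1 : ℕ) = k ∧ 1 ≤ (p.2 : ℕ)) ∨ ((p.1 : ℕ) = k + 1 ∧ (p.2 : ℕ) = 0)

lemma cov_nontrivial (hm : 2 ≤ m) (hk : 1 ≤ k) (hkr : k + 2 ≤ r) :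
    NontrivialCover (sz r k m) (EE r k hm) (cov r k m) := by
  refine ⟨fun e he => ?_, fun e _ => ?_, fun i => ?_⟩
  · obtain ⟨j, -, rfl⟩ := mem_image.1 he
    by_cases h : (j : ℕ) = 0
    · refine ⟨⟨k + 1, by omega⟩, ?_⟩
      unfold cov
      rw [mem_filter]
      refine ⟨mem_univ _, Or.inr ⟨rfl, ?_⟩⟩
      show (if k + 1 < k then 0 else (j : ℕ)) = 0
      rw [if_neg (by omega), h]
    · refine ⟨⟨k, by omega⟩, ?_⟩
      unfold cov
      rw [mem_filter]
      refine ⟨mem_univ _, Or.inl ⟨rfl, ?_⟩⟩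
      show 1 ≤ (if k < k then 0 else (j : ℕ))
      rw [if_neg (by omega)]; omega
  · refine ⟨⟨0, by omega⟩, ?_⟩
    unfold cov
    rw [mem_filter]
    rintro ⟨-, h | h⟩
    · have := h.1
      simp only at this
      omega
    · have := h.1
      simp only at this
      omega
  · by_cases h : (i : ℕ) = k + 1
    · have hs : sz r k m i = m := by unfold sz; rw [if_neg (by omega)]
      refine ⟨⟨1, by omega⟩, ?_⟩
      unfold cov
      rw [mem_filter]
      rintro ⟨-, h' | h'⟩
      · have := h'.1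
        simp only at this
        omega
      · exact absurd h'.2 one_ne_zero
    · have hs : 0 < sz r k m i := by unfold sz; split_ifs <;> omega
      refine ⟨⟨0, hs⟩, ?_⟩
      unfold cov
      rw [mem_filter]
      rintro ⟨-, h' | h'⟩
      · exact absurd h'.2 (by simp)
      · exact h h'.1

lemma cov_card (hm : 2 ≤ m) : (cov r k m).card ≤ m := by
  -- map each element to the index of the edge through it
  have h1 : ((cov r k m).image fun p => (p.2 : ℕ)) ⊆ range m := by
    intro x hx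
    obtain ⟨p, hp, rfl⟩ := mem_image.1 hx
    have h2 := p.2.2
    have h3 : sz r k m p.1 ≤ m := by unfold sz; split_ifs <;> omega
    exact mem_range.2 (lt_of_lt_of_le h2 h3)
  have h2 : ((cov r k m).image fun p => (p.2 : ℕ)).card = (cov r k m).card := by
    apply card_image_of_injOn
    rintro ⟨i, x⟩ hp ⟨j, y⟩ hq hxy
    rw [mem_coe, cov, mem_filter] at hp hq
    simp only at hxy hp hq
    have hij : i = j := by
      apply Fin.ext
      rcases hp.2 with h | h <;> rcases hq.2 with h' | h' <;> omega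
    subst hij
    rw [Fin.ext hxy]
  rw [← h2]
  exact (card_le_card h1).trans (by rw [card_range])

lemma lower (hm : 2 ≤ m) {T : Finset (Σ i, Fin (sz r k m i))}
    (hT : NontrivialCover (sz r k m) (EE r k hm) T) : m ≤ T.card := by
  obtain ⟨h1, -, h3⟩ := hT
  have h4 : ∀ j : Fin m, ∃ i : Fin r, ¬ (i : ℕ) < k ∧
      (⟨i, ed hm j i⟩ : Σ i, Fin (sz r k m i)) ∈ T := by
    intro j
    obtain ⟨i, hi⟩ := h1 (ed hm j) (mem_image_of_mem _ (mem_univ _))
    refine ⟨i, fun hik => ?_, hi⟩
    obtain ⟨x, hx⟩ := h3 i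
    have hs : sz r k m i = 1 := by unfold sz; rw [if_pos hik]
    have : ed hm j i = x := by
      apply Fin.ext
      have a1 := x.2
      have a2 := (ed (k := k) hm j i).2
      omega
    rw [this] at hi
    exact hx hi
  choose g hg1 hg2 using h4
  have h5 : (univ : Finset (Fin m)).card ≤ T.card := by
    apply card_le_card_of_injOn (fun j => (⟨g j, ed hm j (g j)⟩ : Σ i, Fin (sz r k m i)))
      (fun j _ => hg2 j)
    intro a _ b _ hab
    have h6 : ((⟨g a, ed hm a (g a)⟩ : Σ i, Fin (sz r k m i)).2 : ℕ) =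
        ((⟨g b, ed hm b (g b)⟩ : Σ i, Fin (sz r k m i)).2 : ℕ) := by
      have : (⟨g a, ed hm a (g a)⟩ : Σ i, Fin (sz r k m i)) = ⟨g b, ed hm b (g b)⟩ := hab
      rw [this]
    simp only [ed_val, if_neg (hg1 a), if_neg (hg1 b)] at h6
    exact Fin.ext h6
  simpa using h5

lemma tau_eq (hm : 2 ≤ m) (hk : 1 ≤ k) (hkr : k + 2 ≤ r) : tauStar (sz r k m) (EE r k hm) = m := by
  have hc := cov_nontrivial hm hk hkr
  have hcard : (cov r k m).card = m := le_antisymm (cov_card hm) (lower hm hc)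
  apply le_antisymm
  · exact Nat.sInf_le ⟨_, hc, hcard⟩
  · obtain ⟨T, hT, hT2⟩ := tau_mem ⟨_, hc⟩
    rw [← hT2]
    exact lower hm hT

end example'

/-- **All values of `τ*`.** For `2 ≤ q < r`: the values of `τ*` on the hypergraphs with
exactly `q` sides with more than one vertex are exactly the integers `m ≥ 2`. With at most one such
side there is no non-trivial cover. If all sides have more than one vertex the values are in
`[2, 2r - 3]` for `r ≥ 3`, and there are none for `r = 2`. In particular for `r ≥ 3` the values of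
`τ*` are exactly the integers `m ≥ 2` and `f(r) = ∞`, while `r ≤ 2` gives no value. -/
theorem result :
    (∀ r : ℕ, 3 ≤ r → allValues r = {m | 2 ≤ m}) ∧ allValues 1 = ∅ ∧ allValues 2 = ∅ ∧
    (∀ r q : ℕ, 2 ≤ q → q < r → values r q = {m | 2 ≤ m}) ∧
    (∀ r q : ℕ, 1 ≤ r → q ≤ 1 → values r q = ∅) ∧
    (∀ r : ℕ, 3 ≤ r → values r r ⊆ Set.Icc 2 (2 * r - 3)) := by
  have hlow : ∀ (r : ℕ) (s : Fin r → ℕ) (E : Finset (∀ i, Fin (s i))), 1 ≤ r → Spanning s E →
      (∃ T, NontrivialCover s E T) → 2 ≤ tauStar s E := by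
    intro r s E hr hS hT
    obtain ⟨T, hT1, hT2⟩ := tau_mem hT
    rw [← hT2]
    exact two_le hr hS hT1
  have hex : ∀ r q : ℕ, 2 ≤ q → q < r → ∀ m, 2 ≤ m → m ∈ values r q := by
    intro r q hq hqr m hm
    refine ⟨sz r (r - q) m, EE r (r - q) hm, spanning hm, intersecting hm (by omega) (by omega),
      ?_, ⟨_, cov_nontrivial hm (by omega) (by omega)⟩, tau_eq hm (by omega) (by omega)⟩
    rw [big hm (by omega)]
    omega
  refine ⟨?_, ?_, ?_, ?_, ?_, ?_⟩
  · intro r hr
    ext m
    constructor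
    · rintro ⟨s, E, hS, -, hT, rfl⟩
      exact hlow r s E (by omega) hS hT
    · intro hm
      obtain ⟨s, E, h1, h2, -, h3, h4⟩ := hex r 2 le_rfl (by omega) m hm
      exact ⟨s, E, h1, h2, h3, h4⟩
  · ext m
    simp only [Set.mem_empty_iff_false, iff_false]
    rintro ⟨s, E, hS, -, ⟨T, hT⟩, -⟩
    refine no_cover le_rfl hS ?_ hT
    exact (card_filter_le _ _).trans (by simp)
  · ext m
    simp only [Set.mem_empty_iff_false, iff_false]
    rintro ⟨s, E, hS, hI, ⟨T, hT⟩, -⟩
    exact Infinite.two_no_cover s E hS hI T hT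
  · intro r q hq hqr
    ext m
    constructor
    · rintro ⟨s, E, hS, -, -, hT, rfl⟩
      exact hlow r s E (by omega) hS hT
    · exact hex r q hq hqr m
  · intro r q hr hq
    ext m
    simp only [Set.mem_empty_iff_false, iff_false]
    rintro ⟨s, E, hS, -, hb, ⟨T, hT⟩, -⟩
    exact no_cover hr hS (by omega) hT
  · rintro r hr m ⟨s, E, hS, hI, hb, hT, rfl⟩
    refine ⟨hlow r s E (by omega) hS hT, LinearBound.result r hr s E hS hI (fun i => ?_) hT⟩
    have h1 : (univ.filter fun i : Fin r => s i ≠ 1) = univ := by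
      apply eq_univ_of_card
      rw [Fintype.card_fin]
      exact hb
    have h2 : s i ≠ 1 := by
      have : i ∈ univ.filter fun i : Fin r => s i ≠ 1 := by rw [h1]; exact mem_univ _
      exact (mem_filter.1 this).2
    obtain ⟨T, -, -, h3⟩ := hT
    obtain ⟨x, -⟩ := h3 i
    have := x.2
    omega

end Pool.Agent.Results.MP_2c613a_co.SingletonSides
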